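import Pool.Agent.MP_39ed1d_co.H76.Main

/-! The flow roots of complete graphs accumulate exactly on the circle `|q - 1| = 1` and at `q = 1`. -/

namespace Pool.Agent.Results.MP_39ed1d_co.Circle

open Filter Topology Metric

/-- The number of nowhere-zero `ZMod q`-flows on the complete graph with vertex set `Fin n`,
each edge `{i, j}` with `i < j` being oriented from `i` to `j`. -/
noncomputable def flows (n q : ℕ) : ℕ :=
  Nat.card {f : {p : Fin n × Fin n // p.1 < p.2} → ZMod q //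
    (∀ e, f e ≠ 0) ∧ ∀ v : Fin n, ∑ e with e.1.2 = v, f e = ∑ e with e.1.1 = v, f e}

theorem result :
    (∃ F : ℕ → Polynomial ℤ, ∀ n q : ℕ, 1 ≤ q → (F n).eval (q : ℤ) = flows n q) ∧
    ∀ F : ℕ → Polynomial ℤ, (∀ n q : ℕ, 1 ≤ q → (F n).eval (q : ℤ) = flows n q) →
      {z : ℂ | Tendsto (fun n => infDist z {w : ℂ | Polynomial.aeval w (F n) = 0}) atTop (𝓝 0)} =
        {z : ℂ | ‖z - 1‖ = 1} ∪ {1} ∧
      {z : ℂ | liminf (fun n => infDist z {w : ℂ | Polynomial.aeval w (F n) = 0}) atTop = 0} =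
        {z : ℂ | ‖z - 1‖ = 1} ∪ {1} :=
  ⟨Pool.Agent.MP_39ed1d_co.H78.flows_exists, fun _ hF => Pool.Agent.MP_39ed1d_co.H76.main hF⟩

end Pool.Agent.Results.MP_39ed1d_co.Circle
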